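import Pool.Agent.Lib.MP_e0f8f3_nt.FinF
import Pool.Agent.Lib.MP_e0f8f3_nt.P.crt
import Pool.Agent.Lib.MP_e0f8f3_nt.P.fl
import Pool.Agent.Lib.MP_e0f8f3_nt.P.siv
import Pool.Agent.Lib.MP_e0f8f3_nt.P.low
import Pool.Agent.Lib.MP_e0f8f3_nt.P.rat
import Pool.Agent.Lib.MP_e0f8f3_nt.P.cor
import Pool.Agent.Lib.MP_e0f8f3_nt.P.exp
import Pool.Agent.Lib.MP_e0f8f3_nt.P.tP
import Pool.Agent.Lib.MP_e0f8f3_nt.P.tcls
import Pool.Agent.Lib.MP_e0f8f3_nt.P.ttwo
import Pool.Agent.Lib.MP_e0f8f3_nt.P.trl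
import Pool.Agent.Lib.MP_e0f8f3_nt.P.tgood
import Pool.Agent.Lib.MP_e0f8f3_nt.P.tW
import Pool.Agent.Lib.MP_e0f8f3_nt.P.taa
import Pool.Agent.Lib.MP_e0f8f3_nt.P.uBV
import Pool.Agent.Lib.MP_e0f8f3_nt.P.uprs
import Pool.Agent.Lib.MP_e0f8f3_nt.P.uVin
import Pool.Agent.Lib.MP_e0f8f3_nt.P.uVglob
import Pool.Agent.Lib.MP_e0f8f3_nt.P.yaa
import Pool.Agent.Lib.MP_e0f8f3_nt.P.ygrp
import Pool.Agent.Lib.MP_e0f8f3_nt.P.ygre
import Pool.Agent.Lib.MP_e0f8f3_nt.P.yord
import Pool.Agent.Lib.MP_e0f8f3_nt.P.ycirE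
import Pool.Agent.Lib.MP_e0f8f3_nt.P.ycirO
import Pool.Agent.Lib.MP_e0f8f3_nt.P.tdega
import Pool.Agent.Lib.MP_e0f8f3_nt.P.tdeg
import Pool.Agent.Lib.MP_e0f8f3_nt.P.tin
import Pool.Agent.Lib.MP_e0f8f3_nt.P.tglob
import Pool.Agent.Lib.MP_e0f8f3_nt.P.tcirE
import Pool.Agent.Lib.MP_e0f8f3_nt.P.tcirO
import Pool.Agent.Lib.MP_e0f8f3_nt.P.zlow
import Pool.Agent.Lib.MP_e0f8f3_nt.P.zdega
import Pool.Agent.Lib.MP_e0f8f3_nt.P.zdeg
import Pool.Agent.Lib.MP_e0f8f3_nt.P.fblk
import Pool.Agent.Lib.MP_e0f8f3_nt.P.fLL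
import Pool.Agent.Lib.MP_e0f8f3_nt.P.fLC
import Pool.Agent.Lib.MP_e0f8f3_nt.P.fcon
import Pool.Agent.Lib.MP_e0f8f3_nt.P.fbv
import Pool.Agent.Lib.MP_e0f8f3_nt.P.fER
import Pool.Agent.Lib.MP_e0f8f3_nt.P.fpath

set_option autoImplicit false

/-!
# Almost prime circular arrangements with a long arc of primes

Proof: for most primes `s` of size about `n / (log n) ^ C` the theorem of Bombieri and Vinogradov
(moduli up to `X ^ (1 / 2) / (log X) ^ B`) gives many even numbers `2 b` for which `2 s b - 1` is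
prime; so the bipartite graph of these pairs has a path with more than `n / (log n) ^ D` edges. It
is placed on the circle as an arc. The remaining odd numbers are ordered class by class modulo
twice the product `P` of the odd primes up to `65536`, and one even number is inserted between any
two of them: greedily at the few places disturbed by the arc, and by Hall's theorem at the others,
for the graph which joins the pair `(s, s')` of consecutive odd numbers to the even number `b` when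
neither `s b - 1` nor `s' b - 1` has a prime factor up to `X`, `X` a small power of `n`. In each
pair of compatible classes modulo `P` this graph expands like a random graph (sieve of Brun and
Hooley with a precise constant and a second moment computation), the graph of the classes has a
perfect matching and is connected, and all this is robust against the removal of few vertices.
-/

namespace Pool.Agent.Results.MP_e0f8f3_nt.AlmostPrimeCircleWithPrimeArc

open Pool.Agent.APC

/-- There are absolute constants `B`, `D` such that for every `n ≥ 3` the numbers `1, ..., n` can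
be arranged on a circle, `π 0, ..., π (n - 1)`, so that for any two neighbours `x`, `y` (except one
pair of neighbours, `1` and `3`, when `n` is odd) the number `x y - 1` has at most `B` prime
factors counted with multiplicity, each larger than `n ^ (1 / B)`, for `n ≥ B` even at most `352`
prime factors, each larger than `n ^ (1 / 177)`; and for `n ≥ B` there is moreover an arc of
`l ≥ n / (log n) ^ D` consecutive pairs of neighbours for which all the numbers `x y - 1` are
prime. -/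
theorem result : ∃ B D : ℕ, ∀ n : ℕ, 3 ≤ n → ∃ π : ℕ → ℕ,
    (∀ i < n, 1 ≤ π i ∧ π i ≤ n) ∧ (∀ i < n, ∀ j < n, π i = π j → i = j) ∧
    (∀ i < n,
      ((ArithmeticFunction.cardFactors (π i * π ((i + 1) % n) - 1) ≤ B ∧
          ∀ p : ℕ, p.Prime → p ∣ π i * π ((i + 1) % n) - 1 → n < p ^ B) ∧
        (B ≤ n → ArithmeticFunction.cardFactors (π i * π ((i + 1) % n) - 1) ≤ 352 ∧
          ∀ p : ℕ, p.Prime → p ∣ π i * π ((i + 1) % n) - 1 → n < p ^ 177)) ∨
      (Odd n ∧ π i = 1 ∧ π ((i + 1) % n) = 3)) ∧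
    (B ≤ n → ∃ a l : ℕ, (n : ℝ) / (Real.log n) ^ D ≤ l ∧ a + l < n ∧
      ∀ i, a ≤ i → i < a + l → (π i * π (i + 1) - 1).Prime) := by
  have hs : S_siv := p_siv p_crt p_fl
  have he : S_exp := p_exp hs p_low p_rat (p_cor p_crt)
  have hd : T_dega := q_dega hs p_low
  have hd2 : V_dega2 := z_dega hs z_low
  have hLL : F_LL := f_LL (f_blk Pool.Agent.CM.B.h_bil) Pool.Agent.CM.B.h_dya Pool.Agent.CM.B.h_tI
    Pool.Agent.CH.D.p_vau
  have hcon : F_con := f_con (f_LC hLL)
    (fun lam h => Pool.Agent.CM.B.p_SCP Pool.Agent.CH.D.h_pwp lam h)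
  have hbv : F_bv := f_bv Pool.Agent.CM.B.h_one Pool.Agent.CM.B.h_swp hcon Pool.Agent.CM.B.h_cop
    (fun lam h => (Pool.Agent.CM.B.p_okP lam h).1)
  exact p_fin (p_strong q_P q_cls q_two q_rl q_good hd (q_deg hd) q_in q_W q_glob q_aa he
      q_cirE q_cirO)
    q_P q_cls q_two q_rl q_good hd2 (z_deg hd2) r_Vin q_W r_Vglob q_aa he y_cirE y_cirO y_aa
    y_gre y_ord (f_path r_M1 (f_ER hbv) (r_prs r_M1) y_grp)

end Pool.Agent.Results.MP_e0f8f3_nt.AlmostPrimeCircleWithPrimeArc
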